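import Pool.Agent.Q211.KG.Inv

/-!
# The König graph process: at the first perfect matching there are always two optimal covers

`IsMatching`, `IsCover`, `nu`, `tau`, `Konig` and `kstep` are defined in
`Pool.Agent.Q211.KG.Basic` and `Pool.Agent.Q211.KG.Inv`.
-/

set_option autoImplicit false

open Filter Topology

namespace Pool.Agent.Results.MP_f77465_pr.KonigCovers

open Pool.Agent.Q211.KG

/-- The edges of the complete graph on `Fin n`. -/
abbrev Edge (n : ℕ) := {e : Sym2 (Fin n) // ¬ e.IsDiag}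

/-- The orderings of the edges of the complete graph. -/
abbrev Ordering (n : ℕ) := Fin (n.choose 2) ≃ Edge n

/-- The König graph process for the ordering `σ`: `proc σ i` is `G_i`. -/
noncomputable def proc {n : ℕ} (σ : Ordering n) : ℕ → Finset (Sym2 (Fin n))
  | 0 => ∅
  | i + 1 => if h : i < n.choose 2 then kstep (proc σ i) (σ ⟨i, h⟩).1 else proc σ i

/-- `G` has a perfect matching. -/
def HasPM {n : ℕ} (G : Finset (Sym2 (Fin n))) : Prop :=
  ∃ M ⊆ G, IsMatching M ∧ ∀ v, ∃ e ∈ M, v ∈ e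

/-- `T` is the first index at which there is a perfect matching. -/
def IsT {n : ℕ} (σ : Ordering n) (T : ℕ) : Prop :=
  T ≤ n.choose 2 ∧ HasPM (proc σ T) ∧ ∀ i < T, ¬ HasPM (proc σ i)

/-- The event that `T = ∞` or that `G_T` has exactly one optimal cover. -/
def Good {n : ℕ} (σ : Ordering n) : Prop :=
  (¬ ∃ T, IsT σ T) ∨ ∃ T, IsT σ T ∧
    ∃! C : Finset (Fin n), IsCover (proc σ T) C ∧ C.card = tau (proc σ T)

/-- The probability of the event `Good` for a uniformly random ordering. -/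
noncomputable def prob (n : ℕ) : ℝ :=
  (Nat.card {σ : Ordering n // Good σ} : ℝ) / Nat.card (Ordering n)

theorem nonempty_ordering (n : ℕ) : Nonempty (Ordering n) := by
  refine ⟨(Fintype.equivFinOfCardEq ?_).symm⟩
  rw [Sym2.card_subtype_not_diag, Fintype.card_fin]

/-- The proposed edges. -/
noncomputable def proposed {n : ℕ} (σ : Ordering n) (i : ℕ) : Finset (Sym2 (Fin n)) :=
  (Finset.univ.filter (fun j : Fin (n.choose 2) => j.1 < i)).image (fun j => (σ j).1)

theorem proposed_zero {n : ℕ} (σ : Ordering n) : proposed σ 0 = ∅ := by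
  simp [proposed]

theorem proposed_succ {n : ℕ} (σ : Ordering n) (i : ℕ) (h : i < n.choose 2) :
    proposed σ (i + 1) = insert (σ ⟨i, h⟩).1 (proposed σ i) := by
  ext e
  simp only [proposed, Finset.mem_image, Finset.mem_filter, Finset.mem_univ, true_and,
    Finset.mem_insert]
  constructor
  · rintro ⟨j, hj, rfl⟩
    rcases Nat.lt_succ_iff_lt_or_eq.1 hj with h1 | h1
    · exact Or.inr ⟨j, h1, rfl⟩
    · left
      have : j = ⟨i, h⟩ := Fin.ext h1
      rw [this]
  · rintro (rfl | ⟨j, hj, rfl⟩)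
    · exact ⟨⟨i, h⟩, Nat.lt_succ_self i, rfl⟩
    · exact ⟨j, Nat.lt_succ_of_lt hj, rfl⟩

theorem nu_empty (n : ℕ) : nu (∅ : Finset (Sym2 (Fin n))) = 0 := by
  obtain ⟨M, hM, _, h2⟩ := exists_nu (∅ : Finset (Sym2 (Fin n)))
  rw [← h2, Finset.subset_empty.1 hM]
  rfl

theorem tau_empty (n : ℕ) : tau (∅ : Finset (Sym2 (Fin n))) = 0 := by
  have h : IsCover (∅ : Finset (Sym2 (Fin n))) ∅ := by
    intro e he
    simp at he
  exact Nat.le_zero.1 (tau_le h)

theorem proc_props {n : ℕ} (σ : Ordering n) (i : ℕ) (hi : i ≤ n.choose 2) :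
    (∀ f ∈ proc σ i, ¬ f.IsDiag) ∧ Konig (proc σ i) ∧ Inv (proc σ i) (proposed σ i) := by
  induction i with
  | zero =>
    refine ⟨?_, ?_, ?_⟩
    · intro f hf
      simp [proc] at hf
    · rw [proc, Konig, nu_empty, tau_empty]
    · rw [proc, proposed_zero]
      exact inv_empty
  | succ i ih =>
    have hi' : i < n.choose 2 := hi
    obtain ⟨h1, h2, h3⟩ := ih hi'.le
    rw [proc, dif_pos hi', proposed_succ σ i hi']
    exact inv_step h1 (σ ⟨i, hi'⟩).2 h2 h3

theorem card_cover {n : ℕ} {M : Finset (Sym2 (Fin n))} (hd : ∀ e ∈ M, ¬ e.IsDiag)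
    (hM : IsMatching M) : (M.biUnion Sym2.toFinset).card = 2 * M.card := by
  rw [Finset.card_biUnion]
  · rw [Finset.sum_congr rfl fun e he => Sym2.card_toFinset_of_not_isDiag e (hd e he)]
    rw [Finset.sum_const, smul_eq_mul, mul_comm]
  · intro e he f hf hef
    show Disjoint e.toFinset f.toFinset
    rw [Finset.disjoint_left]
    intro v hv hv'
    rw [Sym2.mem_toFinset] at hv hv'
    exact hef (hM e he f hf v hv hv')

theorem two_nu_le {n : ℕ} {G : Finset (Sym2 (Fin n))} (hd : ∀ e ∈ G, ¬ e.IsDiag) :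
    2 * nu G ≤ n := by
  obtain ⟨M, hM, h1, h2⟩ := exists_nu G
  rw [← h2, ← card_cover (fun e he => hd e (hM he)) h1]
  refine (Finset.card_le_univ _).trans ?_
  rw [Fintype.card_fin]

theorem hasPM_iff {n : ℕ} {G : Finset (Sym2 (Fin n))} (hd : ∀ e ∈ G, ¬ e.IsDiag) :
    HasPM G ↔ 2 * nu G = n := by
  constructor
  · rintro ⟨M, hM, h1, h2⟩
    apply le_antisymm (two_nu_le hd)
    have h3 : M.biUnion Sym2.toFinset = Finset.univ := by
      apply Finset.eq_univ_of_forall
      intro v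
      obtain ⟨e, he, hv⟩ := h2 v
      exact Finset.mem_biUnion.2 ⟨e, he, Sym2.mem_toFinset.2 hv⟩
    have h4 := card_cover (fun e he => hd e (hM he)) h1
    rw [h3, Finset.card_univ, Fintype.card_fin] at h4
    have h5 := le_nu hM h1
    omega
  · intro h
    obtain ⟨M, hM, h1, h2⟩ := exists_nu G
    refine ⟨M, hM, h1, fun v => ?_⟩
    have h4 := card_cover (fun e he => hd e (hM he)) h1
    rw [h2, h] at h4
    have h5 : M.biUnion Sym2.toFinset = Finset.univ := by
      rw [← Finset.card_eq_iff_eq_univ, h4, Fintype.card_fin]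
    have h6 : v ∈ M.biUnion Sym2.toFinset := by
      rw [h5]
      exact Finset.mem_univ v
    obtain ⟨e, he, hv⟩ := Finset.mem_biUnion.1 h6
    exact ⟨e, he, Sym2.mem_toFinset.1 hv⟩

/-- The final graph always has a perfect matching. -/
theorem final_pm {n : ℕ} (hn : Even n) (σ : Ordering n) : HasPM (proc σ (n.choose 2)) := by
  obtain ⟨hd, _, hinv⟩ := proc_props σ _ le_rfl
  rw [hasPM_iff hd]
  have h1 := two_nu_le hd
  by_contra hne
  have h2 : 2 + 2 * nu (proc σ (n.choose 2)) ≤ n := by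
    obtain ⟨k, hk⟩ := hn
    omega
  obtain ⟨M, hM, m1, m2⟩ := exists_nu (proc σ (n.choose 2))
  obtain ⟨p, q, hpq, _, _, hP, _⟩ := hinv ∅
    ⟨M, hM, m1, m2, fun _ _ _ _ => Finset.notMem_empty _⟩ (by
      rw [Finset.card_empty, Fintype.card_fin]
      omega)
  apply hP
  have hpq' : ¬ (s(p, q)).IsDiag := fun h => hpq (Sym2.mk_isDiag_iff.1 h)
  obtain ⟨j, hj⟩ := σ.surjective ⟨s(p, q), hpq'⟩
  rw [proposed, Finset.mem_image]
  refine ⟨j, ?_, ?_⟩
  · rw [Finset.mem_filter]
    exact ⟨Finset.mem_univ _, j.2⟩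
  · rw [hj]

/-- At the time `T` there are two optimal covers. -/
theorem two_covers {n : ℕ} (hn : Even n) (hn0 : 0 < n) (σ : Ordering n) {T : ℕ}
    (hT : IsT σ T) : tau (proc σ T) = n / 2 ∧ ∃ C₁ C₂ : Finset (Fin n), C₁ ≠ C₂ ∧
      IsCover (proc σ T) C₁ ∧ C₁.card = n / 2 ∧ IsCover (proc σ T) C₂ ∧ C₂.card = n / 2 := by
  obtain ⟨hTN, hpm, hmin⟩ := hT
  obtain ⟨hd, hK, _⟩ := proc_props σ T hTN
  have hnu : 2 * nu (proc σ T) = n := (hasPM_iff hd).1 hpm
  have htau : tau (proc σ T) = n / 2 := by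
    rw [hK]
    omega
  refine ⟨htau, ?_⟩
  obtain ⟨i, rfl⟩ : ∃ i, T = i + 1 := by
    rcases Nat.eq_zero_or_pos T with h0 | h0
    · exfalso
      rw [h0, proc, nu_empty] at hnu
      omega
    · exact ⟨T - 1, by omega⟩
  have hi : i < n.choose 2 := hTN
  obtain ⟨hd', hK', _⟩ := proc_props σ i hi.le
  have hno : ¬ HasPM (proc σ i) := hmin i (Nat.lt_succ_self i)
  rw [hasPM_iff hd'] at hno
  have h2 := two_nu_le hd'
  set e := (σ ⟨i, hi⟩).1 with he
  have hstep : proc σ (i + 1) = kstep (proc σ i) e := by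
    rw [proc, dif_pos hi]
  have hins : proc σ (i + 1) = insert e (proc σ i) := by
    rw [hstep, kstep]
    split_ifs with h
    · rfl
    · exfalso
      rw [hstep, kstep, if_neg h] at hnu
      exact hno hnu
  have h3 := nu_insert_le (proc σ i) e
  rw [← hins] at h3
  have hnu' : 2 * nu (proc σ i) + 2 = n := by
    obtain ⟨k, hk⟩ := hn
    omega
  obtain ⟨C, hC, hCc⟩ := exists_tau (proc σ i)
  rw [hK'] at hCc
  have hed : ¬ e.IsDiag := (σ ⟨i, hi⟩).2
  clear_value e
  induction e using Sym2.ind with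
  | _ x y =>
    have hxy : x ≠ y := fun h => hed (Sym2.mk_isDiag_iff.2 h)
    have hcov : ∀ v : Fin n, v ∈ s(x, y) →
        IsCover (proc σ (i + 1)) (insert v C) ∧ (insert v C).card = n / 2 := by
      intro v hv
      have h4 : IsCover (proc σ (i + 1)) (insert v C) := by
        rw [hins]
        intro f hf
        rcases Finset.mem_insert.1 hf with h5 | h5
        · exact ⟨v, Finset.mem_insert_self _ _, by rw [h5]; exact hv⟩
        · obtain ⟨w, hw, hwf⟩ := hC f h5
          exact ⟨w, Finset.mem_insert_of_mem hw, hwf⟩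
      refine ⟨h4, ?_⟩
      have h5 := tau_le h4
      have h6 : (insert v C).card ≤ C.card + 1 := Finset.card_insert_le _ _
      omega
    obtain ⟨a1, a2⟩ := hcov x (Sym2.mem_mk_left _ _)
    obtain ⟨b1, b2⟩ := hcov y (Sym2.mem_mk_right _ _)
    refine ⟨insert x C, insert y C, ?_, a1, a2, b1, b2⟩
    intro heq
    have hxC : x ∉ C := by
      intro h
      rw [Finset.insert_eq_of_mem h] at a2
      omega
    have h7 : x ∈ insert y C := by
      rw [← heq]
      exact Finset.mem_insert_self _ _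
    rcases Finset.mem_insert.1 h7 with h8 | h8
    · exact hxy h8
    · exact hxC h8

theorem exists_T {n : ℕ} (hn : Even n) (σ : Ordering n) : ∃ T, IsT σ T := by
  classical
  have h : ∃ i, HasPM (proc σ i) := ⟨_, final_pm hn σ⟩
  exact ⟨Nat.find h, Nat.find_min' h (final_pm hn σ), Nat.find_spec h,
    fun i hi => Nat.find_min h hi⟩

theorem not_good {n : ℕ} (hn : Even n) (hn0 : 0 < n) (σ : Ordering n) : ¬ Good σ := by
  rintro (h | ⟨T, hT, C, _, hC⟩)
  · exact h (exists_T hn σ)
  · obtain ⟨h1, C₁, C₂, hne, a1, a2, b1, b2⟩ := two_covers hn hn0 σ hT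
    exact hne ((hC C₁ ⟨a1, a2.trans h1.symm⟩).trans (hC C₂ ⟨b1, b2.trans h1.symm⟩).symm)

/-- **Negative answer.**  For every positive even `n` and every ordering of the edges, the König
graph process reaches a perfect matching (`T < ∞`), and at the time `T` the graph has at least two
optimal covers.  Hence the probability in question is `0` for every positive even `n`. -/
theorem result :
    (∀ n : ℕ, Even n → 0 < n → ∀ σ : Ordering n, ∃ T, IsT σ T ∧ tau (proc σ T) = n / 2 ∧
      ∃ C₁ C₂ : Finset (Fin n), C₁ ≠ C₂ ∧ IsCover (proc σ T) C₁ ∧ C₁.card = n / 2 ∧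
        IsCover (proc σ T) C₂ ∧ C₂.card = n / 2) ∧
    (∀ n : ℕ, Even n → 0 < n → Nonempty (Ordering n) ∧ prob n = 0) ∧
    ¬ Tendsto (fun m : ℕ => prob (2 * m)) atTop (𝓝 1) := by
  have hprob : ∀ n : ℕ, Even n → 0 < n → prob n = 0 := by
    intro n hn hn0
    have : IsEmpty {σ : Ordering n // Good σ} := ⟨fun σ => not_good hn hn0 σ.1 σ.2⟩
    rw [prob, Nat.card_of_isEmpty, Nat.cast_zero, zero_div]
  refine ⟨?_, fun n hn hn0 => ⟨nonempty_ordering n, hprob n hn hn0⟩, ?_⟩
  · intro n hn hn0 σ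
    obtain ⟨T, hT⟩ := exists_T hn σ
    exact ⟨T, hT, two_covers hn hn0 σ hT⟩
  · intro h
    have h0 : Tendsto (fun m : ℕ => prob (2 * m)) atTop (𝓝 0) := by
      refine tendsto_const_nhds.congr' ?_
      filter_upwards [eventually_gt_atTop 0] with m hm
      exact (hprob (2 * m) (even_two_mul m) (by omega)).symm
    exact zero_ne_one (tendsto_nhds_unique h0 h)

end Pool.Agent.Results.MP_f77465_pr.KonigCovers
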